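import Pool.Agent.H855R3.MD.StmtsG

/-! Project H855-MAH, task NUMG3. -/

set_option autoImplicit false

open Filter Topology

namespace Pool.Agent.H493R3.MD

open H855MD

private lemma r_le {n : ℕ} (hn : 30 ≤ n) :
    9 * (((n : ℝ) + 2) / ((n : ℝ) + 1)) ^ (n + 2) ≤ 26 := by
  have hk : (31 : ℝ) ≤ (n : ℝ) + 1 := by
    have : (30 : ℝ) ≤ n := by exact_mod_cast hn
    linarith
  have hk0 : (0 : ℝ) < (n : ℝ) + 1 := by linarith
  have h1 : ((n : ℝ) + 2) / ((n : ℝ) + 1) = 1 / ((n : ℝ) + 1) + 1 := by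
    field_simp
    ring
  have h2 : 1 / ((n : ℝ) + 1) + 1 ≤ Real.exp (1 / ((n : ℝ) + 1)) := Real.add_one_le_exp _
  have h0 : (0 : ℝ) ≤ 1 / ((n : ℝ) + 1) + 1 := by positivity
  have h3 : (1 / ((n : ℝ) + 1) + 1) ^ (n + 1) ≤ Real.exp 1 := by
    calc (1 / ((n : ℝ) + 1) + 1) ^ (n + 1) ≤ (Real.exp (1 / ((n : ℝ) + 1))) ^ (n + 1) :=
          pow_le_pow_left₀ h0 h2 _
      _ = Real.exp 1 := by
          rw [← Real.exp_nat_mul]
          congr 1
          push_cast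
          field_simp
  have h4 : 1 / ((n : ℝ) + 1) + 1 ≤ 32 / 31 := by
    have : 1 / ((n : ℝ) + 1) ≤ 1 / 31 := one_div_le_one_div_of_le (by norm_num) hk
    linarith
  have h5 : (((n : ℝ) + 2) / ((n : ℝ) + 1)) ^ (n + 2) ≤ 2.7182818286 * (32 / 31) := by
    rw [h1, pow_succ]
    exact mul_le_mul (h3.trans Real.exp_one_lt_d9.le) h4 h0 (by norm_num)
  calc 9 * (((n : ℝ) + 2) / ((n : ℝ) + 1)) ^ (n + 2) ≤ 9 * (2.7182818286 * (32 / 31)) := by
        linarith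
    _ ≤ 26 := by norm_num

private lemma main_ineq (n : ℕ) (hn : 30 ≤ n) :
    (9 : ℝ) ^ n * ((n : ℝ) + 1) ^ (n + 1) < 26 ^ n * (n.factorial : ℝ) := by
  induction n, hn using Nat.le_induction with
  | base =>
    have h : 9 ^ 30 * (30 + 1) ^ (30 + 1) < 26 ^ 30 * Nat.factorial 30 := by
      norm_num [Nat.factorial]
    exact_mod_cast h
  | succ n hn ih =>
    have hk0 : (0 : ℝ) < (n : ℝ) + 1 := by positivity
    have hr := r_le hn
    set r : ℝ := (((n : ℝ) + 2) / ((n : ℝ) + 1)) ^ (n + 2) with hrdef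
    have hr0 : 0 < r := by positivity
    have h1 : (((n + 1 : ℕ) : ℝ) + 1) ^ (n + 1 + 1) = ((n : ℝ) + 1) ^ (n + 1) * ((n : ℝ) + 1) * r := by
      rw [hrdef, div_pow, ← pow_succ]
      have e : (((n + 1 : ℕ) : ℝ) + 1) = (n : ℝ) + 2 := by push_cast; ring
      rw [e]
      field_simp
    rw [h1, Nat.factorial_succ]
    have h2 : (9 : ℝ) ^ (n + 1) * (((n : ℝ) + 1) ^ (n + 1) * ((n : ℝ) + 1) * r) =
        (9 : ℝ) ^ n * ((n : ℝ) + 1) ^ (n + 1) * (((n : ℝ) + 1) * (9 * r)) := by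
      rw [pow_succ (9 : ℝ) n]
      ring
    have h3 : (26 : ℝ) ^ (n + 1) * (((n + 1) * n.factorial : ℕ) : ℝ) =
        (26 : ℝ) ^ n * (n.factorial : ℝ) * (((n : ℝ) + 1) * 26) := by
      push_cast
      rw [pow_succ]
      ring
    rw [h2, h3]
    have h4 : ((n : ℝ) + 1) * (9 * r) ≤ ((n : ℝ) + 1) * 26 :=
      mul_le_mul_of_nonneg_left hr (by positivity)
    calc (9 : ℝ) ^ n * ((n : ℝ) + 1) ^ (n + 1) * (((n : ℝ) + 1) * (9 * r))
        < (26 : ℝ) ^ n * (n.factorial : ℝ) * (((n : ℝ) + 1) * (9 * r)) :=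
          mul_lt_mul_of_pos_right ih (by positivity)
      _ ≤ (26 : ℝ) ^ n * (n.factorial : ℝ) * (((n : ℝ) + 1) * 26) :=
          mul_le_mul_of_nonneg_left h4 (by positivity)

theorem t_NUMG3 : S_NUMG3 := by
  intro n hn
  have h := main_ineq n hn
  have hf : (0 : ℝ) < (n.factorial : ℝ) := by positivity
  have e : (2 + 8 / 3 ^ 2 : ℝ) = 26 / 9 := by norm_num
  rw [e, div_pow, div_lt_div_iff₀ hf (by positivity)]
  calc ((n : ℝ) + 1) ^ (n + 1) * 9 ^ n = (9 : ℝ) ^ n * ((n : ℝ) + 1) ^ (n + 1) := by ring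
    _ < 26 ^ n * (n.factorial : ℝ) := h

end Pool.Agent.H493R3.MD
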